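import Pool.Agent.P.MP_8b7eba_nt.KV.All

/-! The centraliser of complex conjugation in the 2-adic image. -/

set_option autoImplicit false

namespace Pool.Agent.P.MP_8b7eba_nt.R2.G.KV.Cen

open scoped Matrix

abbrev MZ : Type := Matrix (Fin 2) (Fin 2) ℤ_[2]

/-- all entries are divisible by a power of two -/
def Dv (n : ℕ) (M : MZ) : Prop := ∃ X : MZ, M = (2 : ℤ_[2]) ^ n • X

theorem dv_iff {n : ℕ} {M : MZ} : Dv n M ↔ ∀ i j, 2 ^ n ∣ M i j := by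
  refine ⟨fun ⟨X, h⟩ i j => ⟨X i j, by rw [h]; rfl⟩, fun h => ?_⟩
  choose X hX using h
  exact ⟨Matrix.of X, Matrix.ext hX⟩

theorem dvd_iff {n : ℕ} {z : ℤ_[2]} : 2 ^ n ∣ z ↔ ‖(z : ℚ_[2])‖ ≤ (2 ^ n)⁻¹ := by
  have := PadicInt.norm_le_pow_iff_mem_span_pow z n
  rw [Ideal.mem_span_singleton, zpow_neg, zpow_natCast] at this
  exact this.symm

theorem par (z : ℤ_[2]) : 2 ∣ z ∨ 2 ∣ z - 1 := by
  obtain ⟨n, h1, h2⟩ := PadicInt.exists_mem_range z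
  rw [PadicInt.maximalIdeal_eq_span_p, Ideal.mem_span_singleton] at h2
  interval_cases n
  · exact .inl (by simpa using h2)
  · exact .inr (by simpa using h2)

theorem odd {z : ℤ_[2]} (h : ‖(z : ℚ_[2])‖ = 1) : 2 ∣ z - 1 :=
  (par z).resolve_left fun e => ((PadicInt.norm_lt_one_iff_dvd z).2 e).ne h

variable {R B A C X G : MZ}

theorem comm (hB : R = !![-1, 0; 0, 1] + (2 : ℤ_[2]) ^ 2 • B) (X : MZ) : R * X - X * R =
    (2 : ℤ_[2]) • !![0, -X 0 1; X 1 0, 0] + (2 : ℤ_[2]) ^ 2 • (B * X - X * B) := by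
  have : (!![-1, 0; 0, 1] : MZ) * X - X * !![-1, 0; 0, 1] =
      (2 : ℤ_[2]) • !![0, -X 0 1; X 1 0, 0] := by
    ext i j
    rw [Matrix.sub_apply, Matrix.mul_apply, Matrix.mul_apply, Fin.sum_univ_two, Fin.sum_univ_two]
    fin_cases i <;> fin_cases j <;> simp <;> ring
  rw [hB, ← this]
  simp only [mul_add, add_mul, mul_smul_comm, smul_mul_assoc]
  module

theorem step (hR : R * R = 1) (hB : R = !![-1, 0; 0, 1] + (2 : ℤ_[2]) ^ 2 • B) {j : ℕ}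
    (hG : G = 1 + (2 : ℤ_[2]) ^ 2 • A) (hC : R * G - G * R = (2 : ℤ_[2]) ^ (j + 3) • C)
    (x1 : 2 ∣ X 0 1 - C 0 1) (x2 : 2 ∣ X 1 0 - C 1 0) {H : MZ}
    (hH : H = 1 + (2 : ℤ_[2]) ^ (j + 2) • X) : Dv (j + 4) (R * (G * H) - G * H * R) := by
  have h0 : R * C + C * R = 0 := by
    refine (smul_eq_zero.1
      (?_ : (2 : ℤ_[2]) ^ (j + 3) • (R * C + C * R) = 0)).resolve_left (by simp)
    rw [smul_add, ← mul_smul_comm, ← smul_mul_assoc, ← hC, mul_sub, sub_mul, ← mul_assoc, hR,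
      mul_assoc G, hR, mul_assoc]
    simp
  have h1 := congrFun (congrFun h0 0) 0
  have h2 := congrFun (congrFun h0 1) 1
  rw [hB] at h1 h2
  simp [Matrix.mul_apply, Fin.sum_univ_two] at h1 h2
  obtain ⟨E, hE⟩ : Dv 1 (C + !![0, -X 0 1; X 1 0, 0]) := dv_iff.2 fun i k => by
    obtain ⟨a, ha⟩ := x1
    obtain ⟨b, hb⟩ := x2
    fin_cases i <;> fin_cases k <;> simp
    · exact ⟨2 * B 0 0 * C 0 0 + B 0 1 * C 1 0 + C 0 1 * B 1 0,
        mul_left_cancel₀ two_ne_zero (by linear_combination -h1)⟩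
    · exact ⟨-a, by linear_combination -ha⟩
    · exact ⟨b + C 1 0, by linear_combination hb⟩
    · exact ⟨-(2 * B 1 1 * C 1 1 + B 1 0 * C 0 1 + C 1 0 * B 0 1),
        mul_left_cancel₀ two_ne_zero (by linear_combination h2)⟩
  refine ⟨E + (2 : ℤ_[2]) ^ (j + 1) • (C * X) + (B * X - X * B) + A * (R * X - X * R), ?_⟩
  have e : R * (G * H) - G * H * R = (R * G - G * R) * H + G * (R * H - H * R) := by noncomm_ring
  have e2 : R * H - H * R = (2 : ℤ_[2]) ^ (j + 2) • (R * X - X * R) := by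
    rw [hH]
    simp only [mul_add, add_mul, mul_smul_comm, smul_mul_assoc, mul_one, one_mul]
    module
  rw [e, hC, e2, hG, hH, add_mul, one_mul]
  generalize hY : R * X - X * R = Y
  rw [comm hB] at hY
  simp only [mul_add, mul_smul_comm, smul_mul_assoc, mul_one]
  linear_combination (norm := module) (2 : ℤ_[2]) ^ (j + 3) • hE - (2 : ℤ_[2]) ^ (j + 2) • hY

theorem pow {n : ℕ} (h : Dv n (R * G - G * R)) (i : ℕ) : Dv n (R * G ^ i - G ^ i * R) := by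
  obtain ⟨C, hC⟩ := h
  induction i with
  | zero => exact ⟨0, by simp⟩
  | succ i ih =>
    obtain ⟨E, hE⟩ := ih
    refine ⟨E * G + G ^ i * C, ?_⟩
    rw [smul_add, ← smul_mul_assoc, ← mul_smul_comm, ← hC, ← hE, pow_succ]
    noncomm_ring

/-- the integral form of the representation -/
noncomputable def rz {w : Pl} (T : Tate w) : GQ →* MZ where
  toFun g := Matrix.of fun i j => ⟨T.rho g i j, T.int g i j⟩
  map_one' := Matrix.ext fun i j => Subtype.ext (by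
    change T.rho 1 i j = _
    fin_cases i <;> fin_cases j <;> simp)
  map_mul' g h := Matrix.ext fun i j => Subtype.ext (by
    change T.rho (g * h) i j = _
    rw [map_mul, Matrix.mul_apply, Matrix.mul_apply, Fin.sum_univ_two, Fin.sum_univ_two]
    rfl)

theorem rz_coe {w : Pl} (T : Tate w) (g : GQ) (i j : Fin 2) :
    (rz T g i j : ℚ_[2]) = T.rho g i j := rfl

theorem dv_sub {w : Pl} (T : Tate w) {g h : GQ} {n : ℕ} :
    Dv n (rz T g - rz T h) ↔ ∀ i j, ‖(T.rho g - T.rho h) i j‖ ≤ (2 ^ n)⁻¹ := by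
  simp only [dv_iff, dvd_iff]
  rfl

theorem four {w : Pl} (T : Tate w) (g : GQ) :
    ∃ A : MZ, rz T g = !![(cyc g : ℤ_[2]), 0; 0, 1] + (2 : ℤ_[2]) ^ 2 • A := by
  obtain ⟨A, h⟩ : Dv 2 (rz T g - !![(cyc g : ℤ_[2]), 0; 0, 1]) := dv_iff.2 fun i j => dvd_iff.2 (by
    convert T.four g i j using 1
    · fin_cases i <;> fin_cases j <;> simp [rz_coe, cq]
    · norm_num)
  exact ⟨A, by rw [← h, add_sub_cancel]⟩

theorem det {w : Pl} (T : Tate w) (g : GQ) : (rz T g).det = cyc g := Subtype.ext (by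
  have := T.det g
  rw [Matrix.det_fin_two] at this ⊢
  simpa [rz_coe, cq] using this)

theorem bad (D : Dat) {p : ℕ} (hp : p.Prime) (h : p ∣ 15) : ∃ t ∈ D.GK, D.a t = 0 ∧ ∃ X : MZ,
    rz D.T t = 1 + (2 : ℤ_[2]) ^ 2 • X ∧ 2 ∣ X 1 0 - 1 ∧ (p = 3 → 2 ∣ X 0 1) ∧
      (p = 5 → 2 ∣ X 0 1 - 1) := by
  obtain ⟨w, rfl⟩ := a_CA.pl.1 p hp
  have h2 : w.p ≠ 2 := fun e => by rw [e] at h; omega
  obtain ⟨t, ht, hβ⟩ := Pl.exists_gen a_CA.tame a_CA.res h2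
  have h3 := D.spD w ((Int.natCast_dvd_natCast.2 (h.mul_left 2)).mul_right _) (w.I_le_D ht)
  obtain ⟨e, -, e1, e2, e3, e4, -⟩ := a_UNIP _ D.T w h
  obtain ⟨X, hX⟩ := four D.T t
  rw [a_CA.ec.2.2.2.2.2.2.1 w h2 t ht, Units.val_one, ← Matrix.one_fin_two] at hX
  have n4 : ‖(4 : ℚ_[2])‖ = 4⁻¹ := by
    rw [show (4 : ℚ_[2]) = 2 * 2 by norm_num, norm_mul, TDATX.two]
    norm_num
  have hx : ∀ i j, D.T.rho t i j = (1 : Mt) i j + 4 * (X i j : ℚ_[2]) := fun i j => by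
    rw [← rz_coe, hX]
    have c2 : ((2 : ℤ_[2]) : ℚ_[2]) ^ 2 = 4 := (show (2 : ℚ_[2]) ^ 2 = 4 by norm_num)
    fin_cases i <;> fin_cases j <;> simp [c2]
  obtain ⟨i, j, hij⟩ := (e4 t ht hβ).1
  rw [Matrix.sub_apply, hx, add_sub_cancel_left, norm_mul, n4, mul_eq_left₀ (by norm_num)] at hij
  obtain ⟨f1, f2⟩ := e3 t ht
  obtain ⟨s, hs⟩ := f2 ![1, 0]
  have a0 := congrFun f1 0
  have a1 := congrFun f1 1
  have b0 := congrFun hs 0
  have b1 := congrFun hs 1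
  simp [Matrix.mulVec, dotProduct, Fin.sum_univ_two, hx] at a0 a1 b0 b1
  have c0 := congrArg norm (show (X 0 0 : ℚ_[2]) * e 0 = -(X 0 1 * e 1) by
    linear_combination (1 / 4) * a0)
  have c1 := congrArg norm (show (X 1 0 : ℚ_[2]) * e 0 = -(X 1 1 * e 1) by
    linear_combination (1 / 4) * a1)
  have c2 := congrArg norm (show (X 0 0 : ℚ_[2]) * e 1 = X 1 0 * e 0 by
    linear_combination (1 / 4) * e 1 * b0 - (1 / 4) * e 0 * b1)
  rw [norm_neg, norm_mul, norm_mul] at c0 c1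
  rw [norm_mul, norm_mul] at c2
  have k : ∀ z : ℚ_[2], ‖z - 1‖ < 1 → ‖z‖ = 1 := fun z hz =>
    (Padic.norm_eq_of_norm_sub_lt_right (by rwa [norm_one])).trans norm_one
  have l : ∀ i j, ‖(X i j : ℚ_[2])‖ ≤ 1 := fun i j => (X i j).2
  have k3 : w.p = 3 → ‖(X 1 0 : ℚ_[2])‖ = 1 ∧ ‖(X 0 1 : ℚ_[2])‖ < 1 := fun e3 => by
    have u0 : ‖e 0‖ < 1 := by simpa using (norm_le_pi_norm _ 0).trans_lt (e1 e3)
    have u1 := k _ (by simpa using (norm_le_pi_norm _ 1).trans_lt (e1 e3))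
    rw [u1, mul_one] at c0 c1 c2
    have v0 := c0 ▸ mul_lt_one_of_nonneg_of_lt_one_right (l 0 0) (norm_nonneg _) u0
    have v1 := mul_lt_one_of_nonneg_of_lt_one_right (l 1 0) (norm_nonneg _) u0
    refine ⟨?_, v0⟩
    fin_cases i <;> fin_cases j
    · exact absurd hij (c2.trans_lt v1).ne
    · exact absurd hij v0.ne
    · exact hij
    · exact absurd hij (c1.symm.trans_lt v1).ne
  have k5 : w.p = 5 → ‖(X 1 0 : ℚ_[2])‖ = 1 ∧ ‖(X 0 1 : ℚ_[2])‖ = 1 := fun e5 => by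
    have u0 := k _ (by simpa using (norm_le_pi_norm _ 0).trans_lt (e2 e5))
    have u1 := k _ (by simpa using (norm_le_pi_norm _ 1).trans_lt (e2 e5))
    rw [u0, u1, mul_one, mul_one] at c0 c1
    rw [u0, u1, mul_one, mul_one] at c2
    fin_cases i <;> fin_cases j <;> simp only [Fin.zero_eta, Fin.mk_one] at hij <;>
      constructor <;> linarith
  refine ⟨t, h3, D.an.unr w h2 t ⟨ht, h3⟩, X, hX, odd ?_,
    fun e => (PadicInt.norm_lt_one_iff_dvd _).1 (k3 e).2, fun e => odd (k5 e).2⟩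
  rcases (Nat.Prime.dvd_mul hp (m := 3) (n := 5)).1 h with e | e
  · exact (k3 ((Nat.prime_dvd_prime_iff_eq hp Nat.prime_three).1 e)).1
  · exact (k5 ((Nat.prime_dvd_prime_iff_eq hp Nat.prime_five).1 e)).1

theorem hx (D : Dat) (j : ℕ) (x y : ℤ_[2]) : ∃ h ∈ D.GK, D.a h = 0 ∧ ∃ X : MZ,
    rz D.T h = 1 + (2 : ℤ_[2]) ^ (j + 2) • X ∧ 2 ∣ X 0 1 - x ∧ 2 ∣ X 1 0 - y := by
  induction j with
  | zero =>
    obtain ⟨s, s1, s2, X, s3, s4, s5, -⟩ := bad D Nat.prime_three (by norm_num)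
    obtain ⟨t, t1, t2, Y, t3, t4, -, t5⟩ := bad D Nat.prime_five (by norm_num)
    obtain ⟨a, s4⟩ := s4
    obtain ⟨b, s5⟩ := s5 rfl
    obtain ⟨c, t4⟩ := t4
    obtain ⟨e, t5⟩ := t5 rfl
    rcases par x with ⟨u, hu⟩ | ⟨u, hu⟩ <;> rcases par y with ⟨v, hv⟩ | ⟨v, hv⟩
    · exact ⟨1, one_mem _, D.an.one, 0, by simp, ⟨-u, by simp [hu]⟩, ⟨-v, by simp [hv]⟩⟩
    · exact ⟨s, s1, s2, X, s3, ⟨b - u, by linear_combination s5 - hu⟩,
        ⟨a - v, by linear_combination s4 - hv⟩⟩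
    · refine ⟨s * t, mul_mem s1 t1, by rw [D.an.add _ s1 _ t1, s2, t2, add_zero],
        X + Y + (2 : ℤ_[2]) ^ 2 • (X * Y), ?_, ⟨b + e - u + 2 * (X * Y) 0 1, ?_⟩,
        ⟨a + c + 1 - v + 2 * (X * Y) 1 0, ?_⟩⟩
      · rw [map_mul, s3, t3]
        simp only [mul_add, add_mul, mul_smul_comm, smul_mul_assoc, mul_one, one_mul]
        module
      · simp only [Matrix.add_apply, Matrix.smul_apply, smul_eq_mul]
        linear_combination s5 + t5 - hu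
      · simp only [Matrix.add_apply, Matrix.smul_apply, smul_eq_mul]
        linear_combination s4 + t4 - hv
    · exact ⟨t, t1, t2, Y, t3, ⟨e - u, by linear_combination t5 - hu⟩,
        ⟨c - v, by linear_combination t4 - hv⟩⟩
  | succ j ih =>
    obtain ⟨h, h1, h2, X, h3, ⟨a, h4⟩, ⟨b, h5⟩⟩ := ih
    refine ⟨h * h, mul_mem h1 h1, by rw [D.an.add _ h1 _ h1, h2, add_zero],
      X + (2 : ℤ_[2]) ^ (j + 1) • (X * X), ?_, ⟨a + 2 ^ j * (X * X) 0 1, ?_⟩,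
      ⟨b + 2 ^ j * (X * X) 1 0, ?_⟩⟩
    · rw [map_mul, h3]
      simp only [mul_add, add_mul, mul_smul_comm, smul_mul_assoc, mul_one, one_mul]
      module
    · simp only [Matrix.add_apply, Matrix.smul_apply, smul_eq_mul]
      linear_combination h4
    · simp only [Matrix.add_apply, Matrix.smul_apply, smul_eq_mul]
      linear_combination h5

theorem gam (D : Dat) : ∃ g ∈ D.GK, D.a g = 1 ∧ 4 ∣ (cyc g : ℤ_[2]) - 1 ∧
    ¬ 8 ∣ (cyc g : ℤ_[2]) - 1 := by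
  obtain ⟨g, g1, g2, g3⟩ := D.an.surj a_CA 1 1 (.inl rfl)
  refine ⟨g, D.spD _ (by rw [D.hw2]; exact Dvd.intro (15 * D.m) (by ring)) (Pl.I_le_D _ g1), g2, g3,
    fun h => ?_⟩
  obtain ⟨u, hu⟩ := D.an.two
  have := ((a_CA.lg.1.dvd 1 (cyc g)).2 (.inl (by norm_num [h]))).mul_left (u : ℤ_[2])
  rw [← hu g g1, g2, pow_one] at this
  simpa using (PadicInt.norm_lt_one_iff_dvd 1).2 this

theorem cen (D : Dat) (n : ℕ) : ∃ g ∈ D.GK, D.a g = 1 ∧
    (∃ A : MZ, rz D.T g = 1 + (2 : ℤ_[2]) ^ 2 • A) ∧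
    Dv (n + 3) (rz D.T tau * rz D.T g - rz D.T g * rz D.T tau) := by
  obtain ⟨B, hB⟩ := four D.T tau
  rw [a_CA.ec.2.2.2.2.2.2.2, Units.val_neg, Units.val_one] at hB
  induction n with
  | zero =>
    obtain ⟨g, g1, g2, ⟨c, g3⟩, -⟩ := gam D
    obtain ⟨A, hA⟩ := four D.T g
    obtain ⟨A, hA⟩ : ∃ A : MZ, rz D.T g = 1 + (2 : ℤ_[2]) ^ 2 • A := ⟨!![c, 0; 0, 0] + A, by
      rw [hA, smul_add, ← add_assoc]
      congr 1
      ext i j
      fin_cases i <;> fin_cases j <;> simp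
      linear_combination g3⟩
    refine ⟨g, g1, g2, ⟨A, hA⟩, !![0, -A 0 1; A 1 0, 0] + (2 : ℤ_[2]) • (B * A - A * B), ?_⟩
    have := comm hB A
    rw [hA]
    simp only [mul_add, add_mul, mul_smul_comm, smul_mul_assoc, mul_one, one_mul]
    linear_combination (norm := module) (2 : ℤ_[2]) ^ 2 • this
  | succ n ih =>
    obtain ⟨g, g1, g2, ⟨A, hA⟩, C, hC⟩ := ih
    obtain ⟨h, h1, h2, X, h3, h4, h5⟩ := hx D n (C 0 1) (C 1 0)
    refine ⟨g * h, mul_mem g1 h1, by rw [D.an.add _ g1 _ h1, g2, h2, add_zero],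
      ⟨A + (2 : ℤ_[2]) ^ n • X + (2 : ℤ_[2]) ^ (n + 2) • (A * X), ?_⟩, ?_⟩
    · rw [map_mul, hA, h3]
      simp only [mul_add, add_mul, mul_smul_comm, smul_mul_assoc, mul_one, one_mul]
      module
    · rw [map_mul]
      exact step (by rw [← map_mul, a_CA.tau.2.1, map_one]) hB hA hC h4 h5 h3

theorem even (D : Dat) (hS : S2 D.toPre D.a) {x : GQ} (hx : x ∈ D.GK)
    (h : 8 ∣ (cyc x : ℤ_[2]) - 1) : 2 ∣ D.a x := by
  refine (par _).resolve_right fun ⟨c, e⟩ => ?_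
  obtain ⟨g, g1, g2, g3, g4⟩ := gam D
  have e1 : (cyc (x * g) : ℤ_[2]) - 1 = (cyc x - 1) * cyc g + (cyc g - 1) := by
    rw [a_CA.ec.2.1, Units.val_mul]
    ring
  have := hS _ (mul_mem hx g1) ⟨c + 1, by rw [D.an.add _ hx _ g1, g2]; linear_combination e⟩
    (e1 ▸ dvd_add ((Dvd.dvd.trans ⟨2, by norm_num⟩ h).mul_right _) g3)
  rw [e1] at this
  exact g4 ((dvd_add_right (h.mul_right _)).1 this)

/-- a conjugate of the Frobenius element is trivial on the anticyclotomic tower -/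
theorem conj (D : Dat) (hS : S2 D.toPre D.a) {F : GQ} (hK : tau * F ∈ D.GK) {k : ℕ}
    (h : ∀ i j, ‖(D.T.rho F - D.T.rho tau) i j‖ ≤ (2 ^ (k + 3))⁻¹) : ∃ g ∈ D.GK,
    (∀ i j, ‖(D.T.rho (g * F * g⁻¹) - D.T.rho tau) i j‖ ≤ (2 ^ (k + 1))⁻¹) ∧
    2 ^ k ∣ D.a (tau * (g * F * g⁻¹)) := by
  obtain ⟨U, hU⟩ := (dv_sub D.T).2 h
  rw [sub_eq_iff_eq_add'] at hU
  obtain ⟨c, hc⟩ := even D hS hK (by
    rw [← det D.T, map_mul, hU, mul_add, ← map_mul, a_CA.tau.2.1, map_one, mul_smul_comm,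
      Matrix.det_fin_two]
    generalize rz D.T tau * U = V
    refine ⟨2 ^ k * (V 0 0 + V 1 1 + 2 ^ (k + 3) * (V 0 0 * V 1 1 - V 0 1 * V 1 0)), ?_⟩
    simp
    ring)
  obtain ⟨g, g1, g2, -, g3⟩ := cen D k
  obtain ⟨C, hC⟩ := pow g3 (c.appr k)
  have g4 := pow_mem g1 (c.appr k)
  have g5 := D.an.pow g1 (c.appr k)
  rw [← map_pow] at hC
  generalize g ^ c.appr k = s at hC g4 g5
  have ht : tau ∉ D.GK := (a_CP.karith D.toPre).2.1
  refine ⟨s, g4, (dv_sub D.T).1 ⟨(2 : ℤ_[2]) ^ 2 • ((rz D.T s * U - C) * rz D.T s⁻¹), ?_⟩, ?_⟩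
  · have e : rz D.T tau = rz D.T tau * rz D.T s * rz D.T s⁻¹ := by
      rw [mul_assoc, ← map_mul, mul_inv_cancel, map_one, mul_one]
    rw [smul_smul, ← pow_add, ← smul_mul_assoc, smul_sub, ← hC, ← mul_smul_comm, map_mul, map_mul,
      hU]
    nth_rw 2 [e]
    noncomm_ring
  · have e : tau * (s * F * s⁻¹) = tau * s * tau⁻¹ * (tau * F) * s⁻¹ := by group
    have e1 := D.toPre.on.1.conj_mem s g4 tau
    rw [e, D.an.add _ (mul_mem e1 hK) _ (inv_mem g4), D.an.add _ e1 _ hK, D.an.dih _ ht _ g4,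
      D.an.inv g4, hc, g5, g2]
    obtain ⟨z, hz⟩ := Ideal.mem_span_singleton.1 (c.appr_spec k)
    exact ⟨2 * z, by push_cast at hz; linear_combination 2 * hz⟩

end Pool.Agent.P.MP_8b7eba_nt.R2.G.KV.Cen
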