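import Pool.Agent.P.MP_8b7eba_nt.KW.Ori
import Pool.Agent.P.MP_8b7eba_nt.KW.Cen

/-! Kolyvagin's conjecture at two with the standard primes and for every orientation. -/

set_option autoImplicit false

namespace Pool.Agent.P.MP_8b7eba_nt.R2.G.KV

open scoped Matrix
open MP_9c97e9_nt (Pt pm Is)
open Filter TSPLIT TINVP

theorem kp_one (D : Dat) (hS : S2 D.toPre D.a) {k m q : ℕ} (hk : k + 3 ≤ m)
    (h : KW.KP D.l D.m m q) :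
    ∃ (w : Pl) (F t : GQ), w.p = q ∧ ¬ (w.p : ℤ) ∣ 30 * D.l * D.m ∧ w.IsFrob 1 F ∧ F ∉ D.GK ∧
      t ∈ w.I ∧ (∀ β : Om, β ^ 2 = w.p → t β = -β) ∧
      (∀ i j, ‖(D.T.rho F - D.T.rho tau) i j‖ ≤ (2 ^ (k + 1))⁻¹) ∧ 2 ^ k ∣ D.a (tau * F) ∧
      (tau * F) D.dm = D.dm := by
  obtain ⟨hq, hn, v, σ, τ, hv, h1, h2, h3, h4, h5, h6⟩ := h
  obtain rfl : tau = τ := AlgEquiv.ext fun x => io.injective ((a_CA.tau.1 x).trans (h3 x).symm)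
  have h7 : ∀ P : EO, 2 ^ m • P = 0 → ac σ P = ac tau P := h6
  have hK : tau * σ ∈ D.GK := (fx_GK D.toPre).1 h5
  have ht : tau ∉ D.GK := TLAY.tau_not a_CA D.toPre
  let w : Pl := ⟨q, hq, v, hv⟩
  have hF : w.IsFrob 1 σ := ⟨Pl.mem_D.2 h1, fun x hx => by simpa using h2 x hx⟩
  obtain ⟨g, g1, g2, g3⟩ := Cen.conj D hS hK (k := k) fun i j => by
    have e2 : ‖(2 : ℚ_[2])‖ = 2⁻¹ := by simpa using Padic.norm_p (p := 2)
    have e := h7 (D.T.pt (Pi.single j ((2 : ℚ_[2]) ^ m)⁻¹)) (by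
      rw [← map_nsmul, D.T.ker, ← Pi.single_smul', Pi.norm_single]
      simp)
    rw [D.T.gal, D.T.gal, D.T.pt_eq, ← Matrix.sub_mulVec] at e
    have e3 := (norm_le_pi_norm _ i).trans e
    rw [Matrix.mulVec_single] at e3
    simp only [Pi.smul_apply, MulOpposite.smul_eq_mul_unop, MulOpposite.unop_op, Matrix.col_apply,
      norm_mul, norm_inv, norm_pow, e2, inv_pow, inv_inv] at e3
    rw [← le_div_iff₀ (by positivity), one_div] at e3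
    exact e3.trans (inv_anti₀ (by positivity) (pow_le_pow_right₀ one_le_two hk))
  obtain ⟨t, t1, t2⟩ := Pl.exists_gen a_CA.tame a_CA.res (w := g • w) fun e => hn (by
    rw [show q = 2 from e]; exact ⟨15 * D.l * D.m, by push_cast; ring⟩)
  have e : tau * (g * σ * g⁻¹) = tau * g * tau⁻¹ * (tau * σ) * g⁻¹ := by group
  refine ⟨g • w, g * σ * g⁻¹, t, rfl, hn, hF.smul g, fun a => ht ?_, t1, t2, g2, g3, ?_⟩
  · refine (D.GK.mul_mem_cancel_right a).1 ?_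
    rw [e]
    exact mul_mem (mul_mem (D.toPre.on.1.conj_mem g g1 tau) hK) (inv_mem g1)
  · have a := (sd_eq_one (δ := D.dm)).2 ((fx_iff D.hdm).1 h4)
    rw [← sd_eq_one]
    simp only [sd_mul D.toPrg.fix_dm] at a ⊢
    have b := sd_mul D.toPrg.fix_dm g g⁻¹
    rw [mul_inv_cancel, (sd_eq_one (g := 1)).2 rfl] at b
    linear_combination sd D.dm g * sd D.dm g⁻¹ * a - b

theorem kpb (D : Dat) (hS : S2 D.toPre D.a) (r : ℕ) (n : ℕ → Finset ℕ) (m : ℕ → ℕ)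
    (hm : ∀ k, k + 3 ≤ m k) (hc : ∀ k, (n k).card = r)
    (hK : ∀ k, ∀ q ∈ n k, KW.KP D.l D.m (m k) q) :
    ∃ L : List (Kp D), Ok L ∧ L.length = r ∧ ∀ k, fn L k = n k := by
  let e : ∀ k, Fin r ≃ n k := fun k => (Finset.equivFinOfCardEq (hc k)).symm
  choose w F t h0 h1 h2 h3 h4 h5 h6 h7 h8 using fun (i : Fin r) (k : ℕ) =>
    kp_one D hS (hm k) (hK k _ (e k i).2)
  refine ⟨List.ofFn fun i => ⟨w i, F i, t i, h1 i, h2 i, h3 i, h4 i, h5 i, h6 i, h7 i, h8 i⟩,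
    List.pairwise_ofFn.2 fun i j hij k h => hij.ne ((e k).injective (Subtype.ext ?_)),
    List.length_ofFn, fun k => Finset.ext fun q => ?_⟩
  · exact (h0 i k).symm.trans (h.trans (h0 j k))
  · rw [mem_fn]
    constructor
    · rintro ⟨l, hl, rfl⟩
      obtain ⟨i, rfl⟩ := List.mem_ofFn.1 hl
      exact (h0 i k).symm ▸ (e k i).2
    · intro hq
      exact ⟨_, List.mem_ofFn.2 ⟨(e k).symm ⟨q, hq⟩, rfl⟩, by
        simp only [h0, Equiv.apply_symm_apply]⟩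

theorem nv_of {l : ℕ} {ρ d : ℤ} {r : ℕ} (h : KV.NV l ρ d r) : KW.NV l ρ d r := by
  obtain ⟨M, h⟩ := h
  refine ⟨M, fun m hm => ?_⟩
  obtain ⟨n, P, h1, h2, h3, h4⟩ := h m hm
  refine ⟨n, P, h1, fun q hq => ?_, h3, h4⟩
  obtain ⟨a1, a2, v, σ, τ, a3, a4, a5, a6, a7, a8, a9⟩ := h2 q hq
  exact ⟨a1, a2, v, σ, τ, a3, a4, a5, a6, a7, a8, fun P e => a9 P (.inl e)⟩

theorem nvx (D : Dat) (H : Heeg D.toPrg D.a) (v : List (Kp D) → KA) (hS : Std H)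
    (h2 : S2 D.toPre D.a) (hv : ∀ n, Ok n → D.KD H n (v n)) {r : ℕ}
    (h : KW.NV D.l (rH D.l 1) D.m r) : ∃ n, Ok n ∧ n.length = r ∧ D.kap p1 (v n) ≠ 0 := by
  obtain ⟨M, h⟩ := (Ori.nv_iff D.toPre).1 h
  choose n P h1 h2' h3 h4 using fun k => h (max M (k + 3)) (le_max_left _ _)
  obtain ⟨L, l1, l2, l3⟩ := kpb D h2 r n _ (fun k => le_max_right _ _) h1 h2'
  refine ⟨L, l1, l2, fun e => ?_⟩
  obtain ⟨k, a1, a2, a3⟩ := ((t_UNA D H L _ l1 (hv L l1) e (M + 4)).and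
    ((ev_ge 7).and (ev_ge (M + 4)))).exists
  obtain ⟨j, b1, b2⟩ := ck_eq L a2
  rw [t_ZPP D H hS, b2] at a1
  obtain ⟨u, b3, b4⟩ := t_TOW t_FIB (t_TOW1 t_FIB) _ _ k _ j _ (pn_odd L k) (hS.wi L k) rfl
    (t_INV0 t_FIB D H hS L k l1) b1
  refine h4 k (t_DERB t_HPI t_REPB D H hS L k _ M _ l1 (le_max_left _ _) (l3 k ▸ h3 k)
    (DV.div (e := 4) (ZW_mem _ (mul_ne_zero (cd_ne _) (pn_ne L k)) _) b3 ?_))
  simpa [Z0] using sub_mem a1 (DV.mono b4 a3)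

theorem main' (l : ℕ) (d ρ : ℤ) (hy : R3.Hy l d) (hρ : 60 ∣ ρ ^ 2 + l) : ∃ r : ℕ,
    IsLeast {r | KW.NV l ρ d r} r ∧
    IsGreatest {s | KW.Cork (Wd d) s ∨ KW.Cork (Wd (-l * d)) s} (r + 1) := by
  obtain ⟨w, hw⟩ := a_CA.pl.1 2 Nat.prime_two
  obtain ⟨T⟩ := a_TATE w hw
  obtain ⟨dl, hdl⟩ := IsAlgClosed.exists_pow_nat_eq (d : Om) two_pos
  obtain ⟨sk, hsk⟩ := IsAlgClosed.exists_pow_nat_eq (-l : Om) two_pos
  obtain ⟨P, rfl, rfl, rfl, rfl, rfl⟩ := g_PRG w l d dl sk hw hy hdl hsk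
  obtain ⟨a, ha, hp⟩ := a_ANT P.toPre
  obtain ⟨hS, H, hN, hY, hJ⟩ := g_HEX P a ha hp
  obtain ⟨D, rfl, rfl, -⟩ := g_DATX P T a ha hS
  obtain ⟨v, h1, h2⟩ := t_KOLX D H
  obtain ⟨r, r1, r2, r3, r4⟩ := t_PATCH D v h2
    (t_LB a_CP (t_IW a_CP g_LAY g_IW0) (t_DESC a_CP g_LAY) D)
    (g_NV D H _ hJ (h1 [] List.Pairwise.nil))
  have nv := t_NVX t_UNA t_UNB t_ZPP (t_INV0 t_FIB) (t_TOW t_FIB (t_TOW1 t_FIB))
    (t_DERA t_HPI t_REPA) (t_DERB t_HPI t_REPB) (t_KPA t_REPB) (t_KPB t_HPI t_REPA) D H v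
    ⟨hN, hY, hp⟩ h1
  have d2 : (D.dm * D.sk) ^ 2 = ((-D.l * D.m : ℤ) : Om) := by
    rw [mul_pow, D.hdm, D.hsk]; push_cast; ring
  have s2 : Squarefree (-D.l * D.m) := squarefree_mul_iff.2 ⟨(D.mcop.symm.neg_left).isRelPrime,
    (Nat.prime_iff_prime_int.1 D.lp).neg.squarefree, D.hy.sq⟩
  have s1 := D.hy.sq
  have h0 : 60 ∣ rH D.l 1 ^ 2 + D.l := by
    obtain ⟨t, ht⟩ := Classical.epsilon_spec (TREP1.root D.l)
    have h4 := BSD15.qring_four (n := D.l)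
    rw [rH]
    exact ⟨t, by push_cast at ht h4 ⊢; linear_combination 4 * ht - h4⟩
  refine ⟨r, ⟨Ori.nv D.toPre h0 hρ (nv_of ((nv r).2 r1)), fun s hs => ?_⟩, ?_,
    fun s hs => r4 s (t_EGB D s ?_)⟩
  · obtain ⟨n, n1, rfl, n2⟩ := nvx D H v ⟨hN, hY, hp⟩ hS h1 (Ori.nv D.toPre hρ h0 hs)
    exact r2 n n1 n2
  · exact (t_EGA D _ r3).imp
      (fun h => t_SELB t_IOT t_SNF _ _ _ s1.ne_zero D.hdm (t_E1 _ _ _ _ _ hw D.hdm s1.ne_zero h))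
      fun h => t_SELB t_IOT t_SNF _ _ _ s2.ne_zero d2 (t_E1 _ _ _ _ _ hw d2 s2.ne_zero h)
  · exact hs.imp
      (fun h => t_E2 t_E2A t_E2B _ _ _ _ _ hw D.hdm s1 (t_SELA t_IOT _ _ _ s1.ne_zero D.hdm h))
      fun h => t_E2 t_E2A t_E2B _ _ _ _ _ hw d2 s2 (t_SELA t_IOT _ _ _ s2.ne_zero d2 h)

end Pool.Agent.P.MP_8b7eba_nt.R2.G.KV
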