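import Pool.Agent.P.MP_8b7eba_nt.KV.All
import Pool.Agent.P.MP_8b7eba_nt.KW.Defs

/-! Change of the orientation of the Heegner points. -/

set_option autoImplicit false

namespace Pool.Agent.P.MP_8b7eba_nt.R2.G.KV.Ori

open MP_9c97e9_nt (Pt pm Is)
open _root_.Pool.Agent.P.MP_8b7eba_nt.Mod
open scoped ComplexConjugate

theorem xx_al {z : ℂ} (hz : 0 < z.im) : xx (mob 3 1 15 6 z) * xx z = -9 := by
  obtain ⟨r, hr⟩ := exists_rt (neg_I_re (c := 5) (d := 2) (by norm_num) hz)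
  obtain ⟨s, hs⟩ := exists_rt (neg_I_re (c := 15) (d := 6) (by norm_num) hz)
  have d1 := den_ne (c := 5) (d := 2) (.inl (by norm_num)) hz
  have d2 := den_ne (c := 15) (d := 6) (.inl (by norm_num)) hz
  have e1 := eta_mob 30 1 1 5 6 (by norm_num) (by norm_num) (by norm_num) _ s (im3 hz)
    (by convert hs using 2; push_cast; ring)
  have e2 := eta_mob 30 3 1 5 2 (by norm_num) (by norm_num) (by norm_num) _ r hz hr
  have e3 := eta_mob 30 1 5 1 6 (by norm_num) (by norm_num) (by norm_num) _ s (im15 hz)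
    (by convert hs using 2; push_cast; ring)
  have e4 := eta_mob 30 3 5 1 2 (by norm_num) (by norm_num) (by norm_num) _ r (im5 hz)
    (by convert hr using 2; push_cast; ring)
  push_cast at d1 d2
  have d3 : (15 * z + 6 : ℂ) = 3 * (5 * z + 2) := by ring
  have a1 : mob 1 1 5 6 (3 * z) = mob 3 1 15 6 z := by
    simp only [mob]; push_cast; congr 1 <;> ring
  have a2 : mob 3 1 5 2 z = 3 * mob 3 1 15 6 z := by
    simp only [mob]; push_cast; rw [d3]; field_simp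
  have a3 : mob 1 5 1 6 (15 * z) = 5 * mob 3 1 15 6 z := by
    simp only [mob]; push_cast; rw [one_mul]; field_simp; ring
  have a4 : mob 3 5 1 2 (5 * z) = 15 * mob 3 1 15 6 z := by
    simp only [mob]; push_cast; rw [d3, one_mul]; field_simp; ring
  have h5 := e24_congr (k := mult 30 3 1 5 2 + 5 * mult 30 1 5 1 6)
    (l := 12 + (mult 30 1 1 5 6 + 5 * mult 30 3 5 1 2)) (by decide +kernel)
  rw [e24_add, e24_add, e24_add, e24_five, e24_five, e24_twelve] at h5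
  have r0 : r ≠ 0 := fun h => by simpa [h] using hr.re_pos
  have s0 : s ≠ 0 := fun h => by simpa [h] using hs.re_pos
  have b : s ^ 2 = 3 * r ^ 2 := by
    rw [hr.1, hs.1]; push_cast; ring
  have n1 := eta_ne hz
  have n2 := eta_ne (im3 hz)
  have n3 := eta_ne (im5 hz)
  have n4 := eta_ne (im15 hz)
  have n5 := e24_ne (mult 30 1 1 5 6)
  have n6 := e24_ne (mult 30 3 5 1 2)
  unfold xx
  rw [← a2, ← a3, ← a4, e2, e3, e4, ← a1, e1]
  generalize ModularForm.eta (3 * z) = x, ModularForm.eta (5 * z) = y,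
    ModularForm.eta (15 * z) = u at n2 n3 n4 ⊢
  field_simp
  linear_combination s ^ 4 * h5 - e24 (mult 30 1 1 5 6) * e24 (mult 30 3 5 1 2) ^ 5 *
    (s ^ 2 + 3 * r ^ 2) * b

theorem gcd3 {A B C : ℤ} : Int.gcd A (Int.gcd B C) = 1 ↔
    ∀ p : ℕ, p.Prime → (p : ℤ) ∣ A → (p : ℤ) ∣ B → ¬ (p : ℤ) ∣ C := by
  refine ⟨fun h p hp h1 h2 h3 => ?_, fun h => Nat.coprime_of_dvd fun p hp h2 h3 => ?_⟩
  · have h6 := Int.dvd_gcd h1 (Int.natCast_dvd_natCast.2 (Int.dvd_gcd h2 h3))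
    rw [h] at h6
    exact hp.ne_one (Nat.dvd_one.1 h6)
  · have a5 : (p : ℤ) ∣ (Int.gcd B C : ℤ) := Int.natCast_dvd.2 h3
    exact h p hp (Int.natCast_dvd.2 h2) (a5.trans (Int.gcd_dvd_left _ _))
      (a5.trans (Int.gcd_dvd_right _ _))

/-- `u` carries Heegner points of one orientation to the other, up to rational torsion -/
def Tr (l : ℕ) (u : GQ) (ρ ρ' : ℤ) : Prop :=
  ∀ (c : ℕ) (y : EO), KW.Heeg l ρ c y → ∃ T : EO, 2 • T = 0 ∧ KW.Heeg l ρ' c (ac u y + T)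

variable {l : ℕ} {ρ ρ' : ℤ}

theorem same {c : ℕ} {y : EO} (h : 30 ∣ c * (ρ - ρ')) (hy : KW.Heeg l ρ c y) :
    KW.Heeg l ρ' c y := by
  obtain ⟨A, B, C, z, X, Y, h0, h1, h2, h3, h4, h5⟩ := hy
  exact ⟨A, B, C, z, X, Y, h0, h1, h2, h3, 
    (show B - c * ρ + c * (ρ - ρ') = B - c * ρ' by ring) ▸ dvd_add h4 h, h5⟩

theorem tr_one (h : 30 ∣ ρ - ρ') : Tr l 1 ρ ρ' := fun c y hy =>
  ⟨0, smul_zero _, by rw [ac_one, add_zero]; exact same (h.mul_left _) hy⟩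

theorem tr_tau : Tr l tau ρ (-ρ) := by
  rintro c _ ⟨A, B, C, z, X, Y, h, rfl, h1, h2, h3, h4, h5, h6, h7, h8⟩
  obtain ⟨Y', h', e, -⟩ := is_ac tau (P := .some X Y h) ⟨Y, h, rfl, rfl⟩
  refine ⟨0, smul_zero _, A, -B, C, -conj z, _, Y', h', (add_zero _).trans e, h1, h2,
    (show -(B - c * ρ) = -B - c * -ρ by ring) ▸ h3.neg_right, by rw [← h4]; ring, ?_, R1.oth_im h6, ?_, ?_⟩
  · rw [gcd3] at h5 ⊢
    exact fun p hp a b => h5 p hp a (dvd_neg.1 b)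
  · simpa using congrArg conj h7
  · have e1 : io X = 4 * xx z := h8
    change io (tau X) = 4 * xx (-conj z)
    rw [a_CA.tau.1, e1, R1.xx_conj h6, map_mul, map_ofNat]

theorem tr_al (hl : l.Prime) (h3 : l ≠ 3) (a : 10 ∣ ρ - ρ') (b : 3 ∣ ρ + ρ') : Tr l 1 ρ ρ' := by
  intro c y hy
  rw [ac_one]
  by_cases hc : (3 : ℤ) ∣ c
  · exact ⟨0, smul_zero _, by rw [add_zero]; exact same (mul_dvd_mul hc a) hy⟩
  obtain ⟨_, B, C, z, X, Y, h, rfl, h1, ⟨A, rfl⟩, h3', h4, h5, h6, h7, h8⟩ := hy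
  have e1 : io X = 4 * xx z := h8
  have e2 := xx_al h6
  have hX : X ≠ 0 := fun e => by
    rw [e, map_zero, eq_comm, mul_eq_zero] at e1
    rw [e1.resolve_left (by norm_num), mul_zero] at e2
    norm_num at e2
  obtain ⟨T, hT⟩ := split15.exists_is (x := 0) (η := 0) (by norm_num)
  obtain ⟨η, hP⟩ : ∃ η, Is (.some X Y h : EO) X η := ⟨_, Y, h, rfl, rfl⟩
  obtain ⟨Y', h', e, -⟩ := hP.add_ne split15 hT hX (m := η / X) (x₃ := -144 / X) (by field_simp; ring)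
    (by have := hP.eq split15; field_simp; linear_combination -this)
  have hD : 0 < (l : ℤ) * c ^ 2 := by
    have := hl.pos
    have : (c : ℤ) ≠ 0 := fun e => hc (e ▸ dvd_zero 3)
    positivity
  have d2 := den_ne (c := 15) (d := 6) (.inl (by norm_num)) h6
  refine ⟨T, (two_nsmul T).trans (hT.add_eq_zero split15 (neg_zero (G := Om) ▸ hT)),
    180 * A - 30 * B + 75 * C, -60 * A + 11 * B - 30 * C, 5 * A - B + 3 * C, mob 3 1 15 6 z, _, Y',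
    h', e, ?_, ⟨12 * A - 2 * B + 5 * C, by ring⟩, ?_, by rw [← h4]; ring, ?_,
    im_mob_pos (by norm_num) h6, ?_, ?_⟩
  · nlinarith [sq_nonneg (12 * A - B)]
  · obtain ⟨s, hs⟩ := h3'
    obtain ⟨t, ht⟩ : 30 ∣ 11 * ρ - ρ' := by omega
    exact ⟨-2 * A - C + 11 * s + c * t, by linear_combination 11 * hs + c * ht⟩
  · rw [gcd3] at h5 ⊢
    rintro p hp ⟨a1, b1⟩ ⟨a2, b2⟩ ⟨a3, b3⟩
    have hp' := Nat.prime_iff_prime_int.1 hp
    have hB : (p : ℤ) ∣ B := ⟨2 * a1 + 11 * a2 + 60 * a3, by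
      linear_combination 2 * b1 + 11 * b2 + 60 * b3⟩
    refine h5 p hp ⟨3 * a1 + 15 * a2 + 75 * a3, by linear_combination 3 * b1 + 15 * b2 + 75 * b3⟩
      hB ((hp'.dvd_or_dvd (a := 3) ⟨a1 + 6 * a2 + 36 * a3, by
        linear_combination b1 + 6 * b2 + 36 * b3⟩).resolve_left fun e => ?_)
    obtain rfl : p = 3 := (Nat.prime_dvd_prime_iff_eq hp Nat.prime_three).1 (by exact_mod_cast e)
    obtain ⟨k, rfl⟩ := hB
    rcases hp'.dvd_or_dvd (a := l) (b := c ^ 2) ⟨20 * A * C - 3 * k ^ 2, by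
      push_cast at h4 ⊢; linear_combination h4⟩ with e | e
    · exact h3 ((Nat.prime_dvd_prime_iff_eq hp hl).1 (by exact_mod_cast e)).symm
    · exact hc (hp'.dvd_of_dvd_pow e)
  · have hw := div_mul_cancel₀ (((3 : ℤ) : ℂ) * z + (1 : ℤ)) d2
    rw [← mob] at hw
    refine mul_right_cancel₀ (pow_ne_zero 2 d2) ?_
    push_cast at hw h7 ⊢
    linear_combination 3 * h7 + ((180 * A - 30 * B + 75 * C) * (mob 3 1 15 6 z * (15 * z + 6) +
      (3 * z + 1)) + (-60 * A + 11 * B - 30 * C) * (15 * z + 6)) * hw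
  · change io (-144 / X) = 4 * xx (mob 3 1 15 6 z)
    rw [map_div₀, map_neg, map_ofNat, div_eq_iff ((map_ne_zero _).2 hX), e1]
    linear_combination -16 * e2

theorem fx_conj {a : ℤ} (u : GQ) {g : GQ} (h : KW.Fx a g) : KW.Fx a (u * g * u⁻¹) := fun s hs => by
  rw [AlgEquiv.mul_apply, AlgEquiv.mul_apply, h _ (by rw [← map_pow, hs, map_intCast])]
  exact u.apply_symm_apply s

theorem fx_iff' {a : ℤ} (u : GQ) {g : GQ} : KW.Fx a (u * g * u⁻¹) ↔ KW.Fx a g :=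
  ⟨fun h => by simpa [mul_assoc] using fx_conj u⁻¹ h, fx_conj u⟩

open Classical in
theorem der_iff {d : ℤ} {m : ℕ} {n : Finset ℕ} {P : EO} : KW.Der l ρ d m n P ↔
    ∃ (y : EO) (S : Finset GQ) (lam : ℕ → GQ → ZMod (2 ^ m)),
    KW.Heeg l ρ (R3.cd d * ∏ q ∈ n, q) y ∧ (∀ s ∈ S, KW.Fx (-l) s) ∧
    (∀ g, KW.Fx (-l) g → ∃! s, s ∈ S ∧ ac s y = ac g y) ∧
    (∀ q ∈ n, (∀ g h, KW.Fx (-l) g → KW.Fx (-l) h → lam q (g * h) = lam q g + lam q h) ∧
      (∃ g, KW.Fx (-l) g ∧ lam q g = 1) ∧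
      ∀ g, KW.Fx (-l) g → (∀ x : EO, KW.Heeg l ρ q x → ac g x = x) → lam q g = 0) ∧
    P = ∑ s ∈ S, ((if KW.Fx d s then 1 else -1 : ℤ) * (∏ q ∈ n, lam q s).val) • ac s y := Iff.rfl

open Classical in
theorem der {u : GQ} (h : Tr l u ρ ρ') {d : ℤ} {m : ℕ} {n : Finset ℕ} {P : EO}
    (hP : KW.Der l ρ d m n P) :
    ∃ P' : EO, KW.Der l ρ' d m n P' ∧ IsOfFinAddOrder (P' - ac u P) := by
  obtain ⟨y, S, lam, h1, h2, h3, h4, h5⟩ := der_iff.1 hP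
  obtain ⟨T, t1, t2⟩ := h _ y h1
  have k1 : ∀ (g : GQ) (x T : EO), 2 • T = 0 → ac (u * g * u⁻¹) (ac u x + T) = ac u (ac g x) + T :=
    fun g x T hT => by rw [map_add, ac_two _ hT, ← ac_mul, inv_mul_cancel_right, ac_mul]
  have k2 : ∀ x x' : EO, ac u x = ac u x' → x = x' := fun x x' e =>
    MP_9c97e9_nt.pm_injective _ e
  have k3 : ∀ g : GQ, g = u * (u⁻¹ * g * u) * u⁻¹ := fun g => by group
  have k4 : Function.Injective fun s : GQ => u * s * u⁻¹ := fun a b e => by simpa using e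
  have k5 : ∀ {a : ℤ} {g : GQ}, KW.Fx a g → KW.Fx a (u⁻¹ * g * u) := fun hg => by
    simpa using fx_conj u⁻¹ hg
  refine ⟨_, der_iff.2 ⟨ac u y + T, S.image fun s => u * s * u⁻¹, fun q g => lam q (u⁻¹ * g * u), t2,
    fun s hs => ?_, fun g hg => ?_, fun q hq => ?_, rfl⟩, ?_⟩
  · obtain ⟨s, a, rfl⟩ := Finset.mem_image.1 hs
    exact fx_conj u (h2 s a)
  · obtain ⟨s, ⟨s1, s2⟩, s3⟩ := h3 _ (k5 hg)
    refine ⟨u * s * u⁻¹, ⟨Finset.mem_image_of_mem _ s1, ?_⟩, ?_⟩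
    · rw [k3 g, k1 _ _ _ t1, k1 _ _ _ t1]
      exact congrArg (ac u · + T) s2
    · rintro _ ⟨a1, a2⟩
      obtain ⟨s', a3, rfl⟩ := Finset.mem_image.1 a1
      rw [k3 g, k1 _ _ _ t1, k1 _ _ _ t1] at a2
      rw [s3 s' ⟨a3, k2 _ _ (add_right_cancel a2)⟩]
  · obtain ⟨a1, ⟨g, a2, a3⟩, a4⟩ := h4 q hq
    refine ⟨fun g k hg hk => ?_, ⟨_, fx_conj u a2, by simpa [mul_assoc] using a3⟩,
      fun g hg e => a4 _ (k5 hg) fun x hx => ?_⟩
    · rw [← a1 _ _ (k5 hg) (k5 hk)]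
      group
    · obtain ⟨T', b1, b2⟩ := h _ x hx
      have b3 := e _ b2
      rw [k3 g, k1 _ _ _ b1] at b3
      exact k2 _ _ (add_right_cancel b3)
  · rw [h5, Finset.sum_image fun a _ b _ e => k4 e, map_sum, ← Finset.sum_sub_distrib]
    refine isOfFinAddOrder_iff_nsmul_eq_zero.2 ⟨2, two_pos, ?_⟩
    rw [Finset.smul_sum]
    refine Finset.sum_eq_zero fun s _ => ?_
    rw [k1 _ _ _ t1, fx_iff', map_zsmul]
    simp only [← mul_assoc, inv_mul_cancel, one_mul, inv_mul_cancel_right]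
    rw [← smul_sub, add_sub_cancel_left, smul_comm, t1, smul_zero]

theorem nv_iff (P : Pre) {d : ℤ} {r : ℕ} : KW.NV P.l ρ d r ↔ ∃ M : ℕ, ∀ m, M ≤ m →
    ∃ (n : Finset ℕ) (R : EO), n.card = r ∧ (∀ q ∈ n, KW.KP P.l d m q) ∧ KW.Der P.l ρ d m n R ∧
      R ∉ DV P M := by
  simp only [← dv_iff P]
  rfl

theorem nv1 (P : Pre) {u : GQ} (h : Tr P.l u ρ ρ') {d : ℤ} {r : ℕ} (hn : KW.NV P.l ρ d r) :
    KW.NV P.l ρ' d r := by
  obtain ⟨M, hM⟩ := (nv_iff P).1 hn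
  refine (nv_iff P).2 ⟨M, fun m hm => ?_⟩
  obtain ⟨n, R, a1, a2, a3, a4⟩ := hM m hm
  obtain ⟨R', b1, b2⟩ := der h a3
  refine ⟨n, R', a1, a2, b1, fun e => a4 ?_⟩
  have := DV.ac (sub_mem e (DV.tor b2)) u⁻¹
  rwa [sub_sub_cancel, ← ac_mul, inv_mul_cancel, ac_one] at this

theorem nv (P : Pre) (h : 60 ∣ ρ ^ 2 + P.l) (h' : 60 ∣ ρ' ^ 2 + P.l) {d : ℤ} {r : ℕ}
    (hn : KW.NV P.l ρ d r) : KW.NV P.l ρ' d r := by
  have h3 : P.l ≠ 3 := fun e => by have := P.l16; omega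
  have e : 60 ∣ (ρ - ρ') * (ρ + ρ') := 
    (show ρ ^ 2 + P.l - (ρ' ^ 2 + P.l) = (ρ - ρ') * (ρ + ρ') by ring) ▸ dvd_sub h h'
  have e2 := Int.prime_two.dvd_or_dvd (Dvd.dvd.trans (by norm_num) e)
  have e3 := Int.prime_three.dvd_or_dvd (Dvd.dvd.trans (by norm_num) e)
  have e5 := (show Prime (5 : ℤ) by norm_num).dvd_or_dvd (Dvd.dvd.trans (by norm_num) e)
  rcases e5 with e5 | e5 <;> rcases e3 with e3 | e3
  · exact nv1 P (tr_one (by omega)) hn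
  · exact nv1 P (tr_al P.lp h3 (by omega) e3) hn
  · exact nv1 P (tr_al P.lp h3 (by omega) (by omega)) (nv1 P tr_tau hn)
  · exact nv1 P (tr_one (by omega)) (nv1 P tr_tau hn)

end Pool.Agent.P.MP_8b7eba_nt.R2.G.KV.Ori
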